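import Pool.Agent.Q200.ZZ.Val

/-! # Z1 of H200Z, part 2: the set of the jumps -/

set_option autoImplicit false

namespace Pool.Agent.Q200.ZZ

open Pool.Agent.H200Z Pool.Agent.Q222.HZ

variable {α : ℝ} {Y : Set ℤ} {C : Finset ℝ} {Z : Finset ℤ}

/-- the integers whose position is slightly to the right of one of finitely many points -/
def PF (α : ℝ) (F : Finset UnitAddCircle) (ε : ℝ) : Set ℤ :=
  {y | ∃ f ∈ F, ∃ u : ℝ, 0 ≤ u ∧ u < ε ∧
    (((y : ℝ) * α : ℝ) : UnitAddCircle) = f + ((u : ℝ) : UnitAddCircle)}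

theorem coe_eq_iff {x y : ℝ} : (x : UnitAddCircle) = (y : UnitAddCircle) ↔ ∃ n : ℤ, x = y + n := by
  rw [← sub_eq_zero, ← AddCircle.coe_sub, AddCircle.coe_eq_zero_iff]
  constructor
  · rintro ⟨n, hn⟩
    exact ⟨n, by rw [zsmul_eq_mul, mul_one] at hn; linarith⟩
  · rintro ⟨n, hn⟩
    exact ⟨n, by rw [zsmul_eq_mul, mul_one]; linarith⟩

/-- homogeneity near all special points with one radius -/
theorem radius (B : Finset ℝ) : ∃ r > 0, ∀ b ∈ B,
    ((∀ u, 0 < u → u < r → val α Y C Z (b + u)) ∨ (∀ u, 0 < u → u < r → ¬ val α Y C Z (b + u))) ∧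
    ((∀ u, 0 < u → u < r → val α Y C Z (b - u)) ∨
      (∀ u, 0 < u → u < r → ¬ val α Y C Z (b - u))) := by
  classical
  induction B using Finset.induction_on with
  | empty => exact ⟨1, one_pos, fun b hb => absurd hb (Finset.notMem_empty b)⟩
  | insert a B _ ih =>
    obtain ⟨r, hr, h⟩ := ih
    obtain ⟨r1, hr1, h1⟩ : ∃ r1 > 0, (∀ u, 0 < u → u < r1 → val α Y C Z (a + u)) ∨
        (∀ u, 0 < u → u < r1 → ¬ val α Y C Z (a + u)) := by
      rcases right_hom (α := α) (Y := Y) (C := C) (Z := Z) a with ⟨r1, hr1, h⟩ | ⟨r1, hr1, h⟩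
      · exact ⟨r1, hr1, Or.inl h⟩
      · exact ⟨r1, hr1, Or.inr h⟩
    obtain ⟨r2, hr2, h2⟩ : ∃ r2 > 0, (∀ u, 0 < u → u < r2 → val α Y C Z (a - u)) ∨
        (∀ u, 0 < u → u < r2 → ¬ val α Y C Z (a - u)) := by
      rcases left_hom (α := α) (Y := Y) (C := C) (Z := Z) a with ⟨r2, hr2, h⟩ | ⟨r2, hr2, h⟩
      · exact ⟨r2, hr2, Or.inl h⟩
      · exact ⟨r2, hr2, Or.inr h⟩
    refine ⟨min r (min r1 r2), lt_min hr (lt_min hr1 hr2), fun b hb => ?_⟩
    have e0 : min r (min r1 r2) ≤ r := min_le_left _ _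
    have e1 : min r (min r1 r2) ≤ r1 := (min_le_right _ _).trans (min_le_left _ _)
    have e2 : min r (min r1 r2) ≤ r2 := (min_le_right _ _).trans (min_le_right _ _)
    rw [Finset.mem_insert] at hb
    rcases hb with rfl | hb
    · refine ⟨?_, ?_⟩
      · rcases h1 with h1 | h1
        · exact Or.inl fun u hu hu' => h1 u hu (hu'.trans_le e1)
        · exact Or.inr fun u hu hu' => h1 u hu (hu'.trans_le e1)
      · rcases h2 with h2 | h2
        · exact Or.inl fun u hu hu' => h2 u hu (hu'.trans_le e2)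
        · exact Or.inr fun u hu hu' => h2 u hu (hu'.trans_le e2)
    · obtain ⟨h3, h4⟩ := h b hb
      refine ⟨?_, ?_⟩
      · rcases h3 with h3 | h3
        · exact Or.inl fun u hu hu' => h3 u hu (hu'.trans_le e0)
        · exact Or.inr fun u hu hu' => h3 u hu (hu'.trans_le e0)
      · rcases h4 with h4 | h4
        · exact Or.inl fun u hu hu' => h4 u hu (hu'.trans_le e0)
        · exact Or.inr fun u hu hu' => h4 u hu (hu'.trans_le e0)

theorem start {D : (n : ℕ) → Set (Fin n → ℤ) → Prop} (hD : DS D) (hα : Irrational α)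
    (hA : Arc α Y) (hY : D1 D Y) (h1 : Y.Infinite) (h2 : Yᶜ.Infinite) :
    ∃ (F : Finset UnitAddCircle) (ε : ℝ), F.Nonempty ∧ 0 < ε ∧
      ∀ (z : ℤ) (s : ℝ), 0 < s → s < ε →
        (((z : ℝ) * α : ℝ) : UnitAddCircle) = ((s : ℝ) : UnitAddCircle) → D1 D (PF α F s) := by
  classical
  obtain ⟨C, Z, hA⟩ := hA
  -- generic elements
  have hfin : ∀ W : Set ℤ, W.Infinite → ∃ y ∈ W, y ∉ Z ∧ Int.fract ((y : ℝ) * α) ≠ 0 ∧
      Int.fract ((y : ℝ) * α) ∉ C := by
    intro W hW
    have hf : ((Z : Set ℤ) ∪ ⋃ c ∈ insert 0 C, {y : ℤ | Int.fract ((y : ℝ) * α - 0) = c}).Finite := by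
      refine (Finset.finite_toSet Z).union ?_
      refine Set.Finite.biUnion (Finset.finite_toSet (insert 0 C)) fun c _ => ?_
      exact fin_eq hα c 0
    obtain ⟨y, hy, hy'⟩ := hW.exists_notMem_finite hf
    rw [Set.mem_union, not_or] at hy'
    refine ⟨y, hy, fun h => hy'.1 h, fun h => hy'.2 ?_, fun h => hy'.2 ?_⟩
    · rw [Set.mem_iUnion₂]
      exact ⟨0, Finset.mem_insert_self _ _, by rw [Set.mem_setOf_eq, sub_zero]; exact h⟩
    · rw [Set.mem_iUnion₂]
      exact ⟨_, Finset.mem_insert_of_mem h, by rw [Set.mem_setOf_eq, sub_zero]⟩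
  have hgerm : ∀ y : ℤ, y ∉ Z → Int.fract ((y : ℝ) * α) ≠ 0 → Int.fract ((y : ℝ) * α) ∉ C →
      ∃ r > 0, ∀ u, 0 < u → u < r → (val α Y C Z ((y : ℝ) * α + u) ↔ y ∈ Y) := by
    intro y hy h0 hC
    obtain ⟨r, hr, h⟩ := val_near (α := α) (Y := Y) (Z := Z) h0 hC
    refine ⟨r, hr, fun u hu hu' => ?_⟩
    rw [h u (by rw [abs_of_pos hu]; exact hu')]
    exact val_iff hA hy
  obtain ⟨y1, hy1, hz1, h01, hC1⟩ := hfin Y h1
  obtain ⟨y2, hy2, hz2, h02, hC2⟩ := hfin Yᶜ h2
  obtain ⟨r1, hr1, hg1⟩ := hgerm y1 hz1 h01 hC1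
  obtain ⟨r2, hr2, hg2⟩ := hgerm y2 hz2 h02 hC2
  obtain ⟨t, ht⟩ := exists_jump (α := α) (Y := Y) (C := C) (Z := Z)
    (x1 := (y1 : ℝ) * α) (x2 := (y2 : ℝ) * α)
    ⟨r2, hr2, fun u hu hu' h => hy2 ((hg2 u hu hu').1 h)⟩
    ⟨r1, hr1, fun u hu hu' => (hg1 u hu hu').2 hy1⟩
  obtain ⟨r, hr, hrad⟩ := radius (α := α) (Y := Y) (C := C) (Z := Z) (insert 0 C)
  obtain ⟨J, hJ⟩ : ∃ J : Finset ℝ, J = (insert 0 C).filter (Jump α Y C Z) := ⟨_, rfl⟩
  have hbJ : Int.fract t ∈ J := by
    rw [hJ, Finset.mem_filter]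
    have e : Int.fract t = t + ((-⌊t⌋ : ℤ) : ℝ) := by
      push_cast
      unfold Int.fract
      ring
    refine ⟨?_, ?_⟩
    · rcases ht.mem with h | h
      · rw [h]
        exact Finset.mem_insert_self _ _
      · exact Finset.mem_insert_of_mem h
    · rw [e]
      exact (Jump.int _).2 ht
  refine ⟨J.image fun b : ℝ => (b : UnitAddCircle), min r 1, ⟨_, Finset.mem_image_of_mem _ hbJ⟩,
    lt_min hr one_pos, fun z s hs0 hs hz => ?_⟩
  have hsr : s < r := hs.trans_le (min_le_left _ _)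
  have hs1 : s < 1 := hs.trans_le (min_le_right _ _)
  obtain ⟨k, hk⟩ := coe_eq_iff.1 hz
  -- the exceptional set
  have hE : ((Z : Set ℤ) ∪ (fun y => y + z) '' (Z : Set ℤ) ∪
      ⋃ b ∈ insert 0 C, ({y : ℤ | Int.fract ((y : ℝ) * α - b) = 0} ∪
        {y : ℤ | Int.fract ((y : ℝ) * α - b) = s})).Finite := by
    refine ((Finset.finite_toSet Z).union ((Finset.finite_toSet Z).image _)).union ?_
    exact Set.Finite.biUnion (Finset.finite_toSet (insert 0 C)) fun b _ =>
      (fin_eq hα 0 b).union (fin_eq hα s b)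
  have hY' : D1 D (Y ∩ {y | y + -z ∈ Y}ᶜ) := D1_inter hD hY (D1_compl hD (D1_shift hD hY (-z)))
  refine D1_change hD hY' hE.toFinset fun y hy => ?_
  rw [Set.Finite.mem_toFinset, Set.mem_union, Set.mem_union, not_or, not_or] at hy
  obtain ⟨⟨hy1, hy2⟩, hy3⟩ := hy
  have hyZ : y ∉ Z := fun h => hy1 h
  have hyzZ : y + -z ∉ Z := fun h => hy2 ⟨y + -z, h, by ring⟩
  have hyb : ∀ b ∈ insert 0 C, Int.fract ((y : ℝ) * α - b) ≠ 0 ∧
      Int.fract ((y : ℝ) * α - b) ≠ s := by
    intro b hb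
    constructor
    · intro h
      exact hy3 (Set.mem_iUnion₂.2 ⟨b, hb, Or.inl h⟩)
    · intro h
      exact hy3 (Set.mem_iUnion₂.2 ⟨b, hb, Or.inr h⟩)
  have hv1 : val α Y C Z ((y : ℝ) * α) ↔ y ∈ Y := val_iff hA hyZ
  have hv2 : val α Y C Z (((y + -z : ℤ) : ℝ) * α) ↔ y + -z ∈ Y := val_iff hA hyzZ
  have e2 : ((y + -z : ℤ) : ℝ) * α = (y : ℝ) * α - s + ((-k : ℤ) : ℝ) := by
    push_cast
    linarith
  rw [e2, val_add_int] at hv2
  rw [Set.mem_inter_iff, Set.mem_compl_iff, Set.mem_setOf_eq, ← hv1, ← hv2]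
  constructor
  · rintro ⟨h3, h4⟩
    -- there is a special point between
    obtain ⟨b, hb, hb1, hb2⟩ : ∃ b ∈ insert 0 C, 0 < Int.fract ((y : ℝ) * α - b) ∧
        Int.fract ((y : ℝ) * α - b) < s := by
      by_contra hcon
      push Not at hcon
      have hcon' : ∀ b ∈ insert 0 C, s < Int.fract ((y : ℝ) * α - b) := fun b hb =>
        lt_of_le_of_ne (hcon b hb (lt_of_le_of_ne (Int.fract_nonneg _) (Ne.symm (hyb b hb).1)))
          (Ne.symm (hyb b hb).2)
      apply h4
      refine (val_congr fun c hc => ?_).1 h3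
      have h5 := hcon' 0 (Finset.mem_insert_self _ _)
      rw [sub_zero] at h5
      have h6 : Int.fract ((y : ℝ) * α - s) = Int.fract ((y : ℝ) * α) - s :=
        fr_of ⌊(y : ℝ) * α⌋ (by
          have := Int.floor_add_fract ((y : ℝ) * α)
          linarith) (by linarith) (by have := Int.fract_lt_one ((y : ℝ) * α); linarith)
      rw [h6]
      constructor
      · intro h7
        by_contra h8
        push Not at h8
        have h9 := hcon' c (Finset.mem_insert_of_mem hc)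
        have h10 : Int.fract ((y : ℝ) * α - c) = Int.fract ((y : ℝ) * α) - c :=
          fr_of ⌊(y : ℝ) * α⌋ (by
            have := Int.floor_add_fract ((y : ℝ) * α)
            linarith) (by linarith) (by linarith)
        rw [h10] at h9
        linarith
      · intro h7
        linarith
    obtain ⟨u, hu⟩ : ∃ u, u = Int.fract ((y : ℝ) * α - b) := ⟨_, rfl⟩
    rw [← hu] at hb1 hb2
    have e3 : (y : ℝ) * α = b + u + (⌊(y : ℝ) * α - b⌋ : ℤ) := by
      have := Int.floor_add_fract ((y : ℝ) * α - b)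
      rw [hu]
      linarith
    obtain ⟨hR, hL⟩ := hrad b hb
    have hbJ : b ∈ J := by
      rw [hJ, Finset.mem_filter]
      refine ⟨hb, ?_, ?_⟩
      · rcases hL with hL | hL
        · exfalso
          apply h4
          rw [e3, val_of_eq ⌊(y : ℝ) * α - b⌋ (x' := b - (s - u)) (by ring)]
          exact hL (s - u) (by linarith) (by linarith)
        · exact ⟨r, hr, hL⟩
      · rcases hR with hR | hR
        · exact ⟨r, hr, hR⟩
        · exfalso
          rw [e3, val_add_int] at h3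
          exact hR u hb1 (by linarith) h3
    refine ⟨(b : UnitAddCircle), Finset.mem_image_of_mem _ hbJ, u, hb1.le, hb2, ?_⟩
    rw [← AddCircle.coe_add]
    exact coe_eq_iff.2 ⟨_, e3⟩
  · rintro ⟨f, hf, u, hu0, hus, hyu⟩
    rw [Finset.mem_image] at hf
    obtain ⟨b, hb, rfl⟩ := hf
    rw [← AddCircle.coe_add] at hyu
    obtain ⟨n, hn⟩ := coe_eq_iff.1 hyu
    rw [hJ, Finset.mem_filter] at hb
    obtain ⟨hb, ⟨r3, hr3, h3⟩, r4, hr4, h4⟩ := hb
    have hu : 0 < u := by
      rcases hu0.lt_or_eq with h | h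
      · exact h
      · exfalso
        apply (hyb b hb).1
        rw [Int.fract_eq_iff]
        exact ⟨le_rfl, one_pos, n, by rw [hn, ← h]; ring⟩
    obtain ⟨hR, hL⟩ := hrad b hb
    constructor
    · rw [hn, val_add_int]
      rcases hR with hR | hR
      · exact hR u hu (by linarith)
      · exfalso
        have h5 : 0 < min r r4 := lt_min hr hr4
        have h6 := min_le_left r r4
        have h7 := min_le_right r r4
        exact hR (min r r4 / 2) (by linarith) (by linarith) (h4 _ (by linarith) (by linarith))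
    · rw [hn, val_of_eq n (x' := b - (s - u)) (by ring)]
      rcases hL with hL | hL
      · exfalso
        have h5 : 0 < min r r3 := lt_min hr hr3
        have h6 := min_le_left r r3
        have h7 := min_le_right r r3
        exact h3 (min r r3 / 2) (by linarith) (by linarith) (hL _ (by linarith) (by linarith))
      · exact hL (s - u) (by linarith) (by linarith)

end Pool.Agent.Q200.ZZ
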