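import Pool.Agent.Q222.HZ.Circ
import Pool.Agent.Q222.HZ.Lib

/-! # Z1 of H200Z, part 1: germs -/

set_option autoImplicit false

namespace Pool.Agent.Q200.ZZ

open Pool.Agent.H200Z Pool.Agent.Q222.HZ

/-- the value of `Y` at the position `x` -/
def val (α : ℝ) (Y : Set ℤ) (C : Finset ℝ) (Z : Finset ℤ) (x : ℝ) : Prop :=
  ∃ y ∉ Z, y ∈ Y ∧ ∀ c ∈ C, (c < Int.fract x ↔ c < Int.fract ((y : ℝ) * α))

variable {α : ℝ} {Y : Set ℤ} {C : Finset ℝ} {Z : Finset ℤ}

theorem val_iff (h : ∀ x ∉ Z, ∀ y ∉ Z,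
    (∀ c ∈ C, c < Int.fract ((x : ℝ) * α) ↔ c < Int.fract ((y : ℝ) * α)) → (x ∈ Y ↔ y ∈ Y))
    {y : ℤ} (hy : y ∉ Z) : val α Y C Z ((y : ℝ) * α) ↔ y ∈ Y := by
  constructor
  · rintro ⟨x, hx, hxY, hc⟩
    exact (h y hy x hx hc).2 hxY
  · intro h1
    exact ⟨y, hy, h1, fun c _ => Iff.rfl⟩

theorem val_congr {x x' : ℝ} (h : ∀ c ∈ C, (c < Int.fract x ↔ c < Int.fract x')) :
    val α Y C Z x ↔ val α Y C Z x' := by
  constructor
  · rintro ⟨y, hy, hyY, hc⟩
    exact ⟨y, hy, hyY, fun c hcC => (h c hcC).symm.trans (hc c hcC)⟩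
  · rintro ⟨y, hy, hyY, hc⟩
    exact ⟨y, hy, hyY, fun c hcC => (h c hcC).trans (hc c hcC)⟩

theorem val_add_int (x : ℝ) (n : ℤ) : val α Y C Z (x + n) ↔ val α Y C Z x :=
  val_congr fun c _ => by rw [Int.fract_add_intCast]

theorem val_of_eq {x x' : ℝ} (n : ℤ) (h : x = x' + n) : val α Y C Z x ↔ val α Y C Z x' := by
  rw [h]
  exact val_add_int x' n

/-- the comparisons to the right of `t` -/
theorem cmp_right (C : Finset ℝ) (t : ℝ) : ∃ r > 0, ∀ u, 0 < u → u < r → ∀ c ∈ C,
    (c < Int.fract (t + u) ↔ c ≤ Int.fract t) := by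
  classical
  induction C using Finset.induction_on with
  | empty => exact ⟨1, one_pos, fun u _ _ c hc => absurd hc (Finset.notMem_empty c)⟩
  | insert a C _ ih =>
    obtain ⟨r, hr, h⟩ := ih
    have h1 := Int.fract_lt_one t
    have h0 := Int.fract_nonneg t
    by_cases ha : a ≤ Int.fract t
    · refine ⟨min r (1 - Int.fract t), lt_min hr (by linarith), fun u hu hu' c hc => ?_⟩
      rw [Finset.mem_insert] at hc
      rcases hc with rfl | hc
      · have h2 : u < 1 - Int.fract t := lt_of_lt_of_le hu' (min_le_right _ _)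
        have h3 : Int.fract (t + u) = Int.fract t + u := fr_of ⌊t⌋ (by
          have := Int.floor_add_fract t
          linarith) (by linarith) (by linarith)
        rw [h3]
        exact ⟨fun _ => ha, fun _ => by linarith⟩
      · exact h u hu (lt_of_lt_of_le hu' (min_le_left _ _)) c hc
    · push Not at ha
      refine ⟨min r (min (1 - Int.fract t) (a - Int.fract t)),
        lt_min hr (lt_min (by linarith) (by linarith)), fun u hu hu' c hc => ?_⟩
      rw [Finset.mem_insert] at hc
      rcases hc with rfl | hc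
      · have h2 : u < 1 - Int.fract t :=
          lt_of_lt_of_le hu' ((min_le_right _ _).trans (min_le_left _ _))
        have h4 : u < c - Int.fract t :=
          lt_of_lt_of_le hu' ((min_le_right _ _).trans (min_le_right _ _))
        have h3 : Int.fract (t + u) = Int.fract t + u := fr_of ⌊t⌋ (by
          have := Int.floor_add_fract t
          linarith) (by linarith) (by linarith)
        rw [h3]
        exact ⟨fun h5 => by linarith, fun h5 => by linarith⟩
      · exact h u hu (lt_of_lt_of_le hu' (min_le_left _ _)) c hc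

/-- the comparisons to the left of `t` -/
theorem cmp_left (C : Finset ℝ) (t : ℝ) : ∃ r > 0, ∀ u, 0 < u → u < r → ∀ c ∈ C,
    (c < Int.fract (t - u) ↔ c < t - (⌈t⌉ - 1)) := by
  classical
  have h1 : (⌈t⌉ : ℝ) < t + 1 := Int.ceil_lt_add_one t
  have h0 : t ≤ ⌈t⌉ := Int.le_ceil t
  induction C using Finset.induction_on with
  | empty => exact ⟨1, one_pos, fun u _ _ c hc => absurd hc (Finset.notMem_empty c)⟩
  | insert a C _ ih =>
    obtain ⟨r, hr, h⟩ := ih
    have key : ∀ u : ℝ, 0 < u → u < t - (⌈t⌉ - 1) → Int.fract (t - u) = t - (⌈t⌉ - 1) - u := by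
      intro u hu hu'
      refine fr_of (⌈t⌉ - 1) ?_ (by linarith) (by linarith)
      push_cast
      ring
    by_cases ha : a < t - (⌈t⌉ - 1)
    · refine ⟨min r (min (t - (⌈t⌉ - 1)) (t - (⌈t⌉ - 1) - a)),
        lt_min hr (lt_min (by linarith) (by linarith)), fun u hu hu' c hc => ?_⟩
      rw [Finset.mem_insert] at hc
      rcases hc with rfl | hc
      · have h2 := lt_of_lt_of_le hu' ((min_le_right _ _).trans (min_le_left _ _))
        have h4 := lt_of_lt_of_le hu' ((min_le_right _ _).trans (min_le_right _ _))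
        rw [key u hu h2]
        exact ⟨fun _ => ha, fun _ => by linarith⟩
      · exact h u hu (lt_of_lt_of_le hu' (min_le_left _ _)) c hc
    · refine ⟨min r (t - (⌈t⌉ - 1)), lt_min hr (by linarith), fun u hu hu' c hc => ?_⟩
      rw [Finset.mem_insert] at hc
      rcases hc with rfl | hc
      · have h2 := lt_of_lt_of_le hu' (min_le_right _ _)
        rw [key u hu h2]
        exact ⟨fun h5 => by linarith, fun h5 => by linarith⟩
      · exact h u hu (lt_of_lt_of_le hu' (min_le_left _ _)) c hc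

/-- the comparisons near a point which is not special -/
theorem cmp_near (C : Finset ℝ) {t : ℝ} (h0 : Int.fract t ≠ 0) (hC : Int.fract t ∉ C) :
    ∃ r > 0, ∀ v, |v| < r → ∀ c ∈ C, (c < Int.fract (t + v) ↔ c < Int.fract t) := by
  classical
  have h1 := Int.fract_lt_one t
  have h2 : 0 < Int.fract t := lt_of_le_of_ne (Int.fract_nonneg t) (Ne.symm h0)
  induction C using Finset.induction_on with
  | empty => exact ⟨1, one_pos, fun u _ c hc => absurd hc (Finset.notMem_empty c)⟩
  | insert a C _ ih =>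
    rw [Finset.mem_insert, not_or] at hC
    obtain ⟨r, hr, h⟩ := ih hC.2
    have h3 : 0 < |a - Int.fract t| := abs_pos.2 (sub_ne_zero.2 (Ne.symm hC.1))
    refine ⟨min r (min (min (Int.fract t) (1 - Int.fract t)) |a - Int.fract t|),
      lt_min hr (lt_min (lt_min h2 (by linarith)) h3), fun v hv c hc => ?_⟩
    rw [Finset.mem_insert] at hc
    rcases hc with rfl | hc
    · have a1 := lt_of_lt_of_le hv ((min_le_right _ _).trans ((min_le_left _ _).trans (min_le_left _ _)))
      have a2 := lt_of_lt_of_le hv ((min_le_right _ _).trans ((min_le_left _ _).trans (min_le_right _ _)))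
      have a3 := lt_of_lt_of_le hv ((min_le_right _ _).trans (min_le_right _ _))
      rw [abs_lt] at a1 a2
      have h4 : Int.fract (t + v) = Int.fract t + v := fr_of ⌊t⌋ (by
        have := Int.floor_add_fract t
        linarith) (by linarith [a1.1]) (by linarith [a2.2])
      rw [h4]
      rcases lt_or_gt_of_ne (Ne.symm hC.1) with h5 | h5
      · rw [abs_of_neg (a := c - Int.fract t) (by linarith), abs_lt] at a3
        exact ⟨fun _ => h5, fun _ => by linarith [a3.1]⟩
      · rw [abs_of_pos (a := c - Int.fract t) (by linarith), abs_lt] at a3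
        exact ⟨fun h6 => by linarith [a3.2], fun h6 => by linarith⟩
    · exact h v (lt_of_lt_of_le hv (min_le_left _ _)) c hc

theorem right_hom (t : ℝ) : (∃ r > 0, ∀ u, 0 < u → u < r → val α Y C Z (t + u)) ∨
    (∃ r > 0, ∀ u, 0 < u → u < r → ¬ val α Y C Z (t + u)) := by
  obtain ⟨r, hr, h⟩ := cmp_right C t
  by_cases h1 : val α Y C Z (t + r / 2)
  · left
    refine ⟨r, hr, fun u hu hu' => (val_congr fun c hc => ?_).1 h1⟩
    exact (h _ (by linarith) (by linarith) c hc).trans (h u hu hu' c hc).symm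
  · right
    refine ⟨r, hr, fun u hu hu' h2 => h1 ((val_congr fun c hc => ?_).1 h2)⟩
    exact (h u hu hu' c hc).trans (h _ (by linarith) (by linarith) c hc).symm

theorem left_hom (t : ℝ) : (∃ r > 0, ∀ u, 0 < u → u < r → val α Y C Z (t - u)) ∨
    (∃ r > 0, ∀ u, 0 < u → u < r → ¬ val α Y C Z (t - u)) := by
  obtain ⟨r, hr, h⟩ := cmp_left C t
  by_cases h1 : val α Y C Z (t - r / 2)
  · left
    refine ⟨r, hr, fun u hu hu' => (val_congr fun c hc => ?_).1 h1⟩
    exact (h _ (by linarith) (by linarith) c hc).trans (h u hu hu' c hc).symm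
  · right
    refine ⟨r, hr, fun u hu hu' h2 => h1 ((val_congr fun c hc => ?_).1 h2)⟩
    exact (h u hu hu' c hc).trans (h _ (by linarith) (by linarith) c hc).symm

theorem val_near {t : ℝ} (h0 : Int.fract t ≠ 0) (hC : Int.fract t ∉ C) :
    ∃ r > 0, ∀ v, |v| < r → (val α Y C Z (t + v) ↔ val α Y C Z t) := by
  obtain ⟨r, hr, h⟩ := cmp_near C h0 hC
  exact ⟨r, hr, fun v hv => val_congr (h v hv)⟩

/-- a jump from `false` to `true` -/
def Jump (α : ℝ) (Y : Set ℤ) (C : Finset ℝ) (Z : Finset ℤ) (t : ℝ) : Prop :=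
  (∃ r > 0, ∀ u, 0 < u → u < r → ¬ val α Y C Z (t - u)) ∧
    ∃ r > 0, ∀ u, 0 < u → u < r → val α Y C Z (t + u)

theorem Jump.mem {t : ℝ} (h : Jump α Y C Z t) : Int.fract t = 0 ∨ Int.fract t ∈ C := by
  by_contra hcon
  rw [not_or] at hcon
  obtain ⟨⟨r1, hr1, h1⟩, r2, hr2, h2⟩ := h
  obtain ⟨r, hr, h3⟩ := val_near (α := α) (Y := Y) (Z := Z) hcon.1 hcon.2
  have hs : 0 < min r (min r1 r2) := lt_min hr (lt_min hr1 hr2)
  obtain ⟨s, hs'⟩ : ∃ s, s = min r (min r1 r2) := ⟨_, rfl⟩
  rw [← hs'] at hs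
  have e1 : s ≤ r := hs' ▸ min_le_left _ _
  have e2 : s ≤ r1 := hs' ▸ (min_le_right _ _).trans (min_le_left _ _)
  have e3 : s ≤ r2 := hs' ▸ (min_le_right _ _).trans (min_le_right _ _)
  have a1 := h1 (s / 2) (by linarith) (by linarith)
  have a2 := h2 (s / 2) (by linarith) (by linarith)
  have a3 := h3 (s / 2) (by rw [abs_of_pos (by linarith)]; linarith)
  have a4 := h3 (-(s / 2)) (by rw [abs_neg, abs_of_pos (by linarith)]; linarith)
  rw [← sub_eq_add_neg] at a4
  exact a1 (a4.2 (a3.1 a2))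

theorem Jump.int {t : ℝ} (n : ℤ) : Jump α Y C Z (t + n) ↔ Jump α Y C Z t := by
  have e1 : ∀ u : ℝ, val α Y C Z (t + n - u) ↔ val α Y C Z (t - u) := fun u =>
    val_of_eq n (by ring)
  have e2 : ∀ u : ℝ, val α Y C Z (t + n + u) ↔ val α Y C Z (t + u) := fun u =>
    val_of_eq n (by ring)
  unfold Jump
  simp only [e1, e2]

/-- there is a jump -/
theorem exists_jump {x1 x2 : ℝ}
    (h2 : ∃ r > 0, ∀ u, 0 < u → u < r → ¬ val α Y C Z (x2 + u))
    (h1 : ∃ r > 0, ∀ u, 0 < u → u < r → val α Y C Z (x1 + u)) : ∃ t, Jump α Y C Z t := by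
  obtain ⟨R, hR⟩ : ∃ R : ℝ → Prop, R = fun t => ∃ r > 0, ∀ u, 0 < u → u < r → val α Y C Z (t + u) :=
    ⟨_, rfl⟩
  obtain ⟨k, hk⟩ := exists_int_gt (x2 - x1)
  have hS0 : R (x1 + k) := by
    rw [hR]
    obtain ⟨r, hr, h⟩ := h1
    exact ⟨r, hr, fun u hu hu' => (val_of_eq k (by ring)).2 (h u hu hu')⟩
  obtain ⟨S, hS⟩ : ∃ S : Set ℝ, S = {x | x2 ≤ x ∧ R x} := ⟨_, rfl⟩
  have hne : S.Nonempty := ⟨x1 + k, by rw [hS]; exact ⟨by linarith, hS0⟩⟩
  have hbd : BddBelow S := ⟨x2, fun x hx => by rw [hS] at hx; exact hx.1⟩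
  obtain ⟨t, ht⟩ : ∃ t, t = sInf S := ⟨_, rfl⟩
  have ht2 : x2 ≤ t := by
    rw [ht]
    exact le_csInf hne fun x hx => by rw [hS] at hx; exact hx.1
  have hlow : ∀ x ∈ S, t ≤ x := fun x hx => by rw [ht]; exact csInf_le hbd hx
  have hRt : R t := by
    rcases right_hom (α := α) (Y := Y) (C := C) (Z := Z) t with h | ⟨r, hr, h⟩
    · rw [hR]
      exact h
    · exfalso
      have h3 : t + r ≤ t := by
        conv_rhs => rw [ht]
        refine le_csInf hne fun x hx => ?_
        by_contra hcon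
        push Not at hcon
        have h4 := hlow x hx
        rw [hS] at hx
        obtain ⟨_, hx2⟩ := hx
        rw [hR] at hx2
        obtain ⟨r', hr', h5⟩ := hx2
        obtain ⟨u, hu⟩ : ∃ u, u = min r' (t + r - x) / 2 := ⟨_, rfl⟩
        have h6 : 0 < min r' (t + r - x) := lt_min hr' (by linarith)
        have h7 : u < r' := by have := min_le_left r' (t + r - x); linarith
        have h8 : x + u < t + r := by have := min_le_right r' (t + r - x); linarith
        have h9 := h5 u (by linarith) h7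
        have h10 := h (x + u - t) (by linarith) (by linarith)
        rw [show t + (x + u - t) = x + u by ring] at h10
        exact h10 h9
      linarith
  have ht3 : x2 < t := by
    rcases ht2.lt_or_eq with h | h
    · exact h
    · exfalso
      obtain ⟨r, hr, h3⟩ := h2
      rw [← h, hR] at hRt
      obtain ⟨r', hr', h4⟩ := hRt
      obtain ⟨u, hu⟩ : ∃ u, u = min r r' / 2 := ⟨_, rfl⟩
      have h6 : 0 < min r r' := lt_min hr hr'
      have h7 := min_le_left r r'
      have h8 := min_le_right r r'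
      exact h3 u (by linarith) (by linarith) (h4 u (by linarith) (by linarith))
  refine ⟨t, ?_, by rw [hR] at hRt; exact hRt⟩
  rcases left_hom (α := α) (Y := Y) (C := C) (Z := Z) t with ⟨r, hr, h⟩ | h
  · exfalso
    obtain ⟨u, hu⟩ : ∃ u, u = min r (t - x2) / 2 := ⟨_, rfl⟩
    have h6 : 0 < min r (t - x2) := lt_min hr (by linarith)
    have h7 := min_le_left r (t - x2)
    have h8 := min_le_right r (t - x2)
    have h9 : t - u ∈ S := by
      rw [hS]
      refine ⟨by linarith, ?_⟩
      rw [hR]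
      refine ⟨u, by linarith, fun v hv hv' => ?_⟩
      have := h (u - v) (by linarith) (by linarith)
      rwa [show t - (u - v) = t - u + v by ring] at this
    have := hlow _ h9
    linarith
  · exact h

end Pool.Agent.Q200.ZZ
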