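import Pool.Agent.Q200.ZZ.Start

/-! # Z1 of H200Z, part 3 -/

set_option autoImplicit false

namespace Pool.Agent.Q200.ZZ

open Pool.Agent.H200Z Pool.Agent.Q222.HZ

variable {D : (n : ℕ) → Set (Fin n → ℤ) → Prop} {α : ℝ}

theorem norm_coe_le (u : ℝ) : ‖(u : UnitAddCircle)‖ ≤ |u| := by
  rw [UnitAddCircle.norm_eq]
  have h := round_le u 0
  rwa [Int.cast_zero, sub_zero] at h

theorem sep (S : Finset UnitAddCircle) : ∃ δ : ℝ, 0 < δ ∧ δ ≤ 1 / 2 ∧ ∀ t ∈ S, ∀ u : ℝ, |u| < δ →
    t = ((u : ℝ) : UnitAddCircle) → t = 0 := by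
  classical
  induction S using Finset.induction_on with
  | empty => exact ⟨1 / 2, by norm_num, le_rfl, fun t ht => absurd ht (Finset.notMem_empty t)⟩
  | insert a S _ ih =>
    obtain ⟨δ, hδ, hδ2, h⟩ := ih
    by_cases ha : a = 0
    · refine ⟨δ, hδ, hδ2, fun t ht u hu htu => ?_⟩
      rw [Finset.mem_insert] at ht
      rcases ht with rfl | ht
      · exact ha
      · exact h t ht u hu htu
    · refine ⟨min δ ‖a‖, lt_min hδ (norm_pos_iff.2 ha), (min_le_left _ _).trans hδ2,
        fun t ht u hu htu => ?_⟩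
      rw [Finset.mem_insert] at ht
      rcases ht with rfl | ht
      · exfalso
        have h1 : ‖t‖ ≤ |u| := by
          rw [htu]
          exact norm_coe_le u
        have h2 : |u| < ‖t‖ := hu.trans_le (min_le_right _ _)
        linarith
      · exact h t ht u (hu.trans_le (min_le_left _ _)) htu

theorem coe_zero_small {u : ℝ} (hu : |u| < 1) (h : ((u : ℝ) : UnitAddCircle) = 0) : u = 0 := by
  have h1 : ((u : ℝ) : UnitAddCircle) = ((0 : ℝ) : UnitAddCircle) := by
    rw [h, AddCircle.coe_zero]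
  obtain ⟨n, hn⟩ := coe_eq_iff.1 h1
  rw [zero_add] at hn
  rw [hn] at hu ⊢
  have h2 : |n| < 1 := by exact_mod_cast hu
  rw [Int.abs_lt_one_iff.1 h2, Int.cast_zero]

/-- a small integer multiple -/
theorem small (hα : Irrational α) (g : UnitAddCircle) {ε : ℝ} (hε : 0 < ε) :
    ∃ (z : ℤ) (s : ℝ), 0 < s ∧ s < ε ∧
      (((z : ℝ) * α : ℝ) : UnitAddCircle) = g + ((s : ℝ) : UnitAddCircle) := by
  obtain ⟨r, rfl⟩ : ∃ r : ℝ, ((r : ℝ) : UnitAddCircle) = g := QuotientAddGroup.mk_surjective g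
  obtain ⟨k, m, -, h1, h2⟩ := dens1 hα (a := r) (b := r + ε) (by linarith) ∅
  refine ⟨k, (k : ℝ) * α - m - r, by linarith, by linarith, ?_⟩
  rw [← AddCircle.coe_add]
  exact coe_eq_iff.2 ⟨m, by ring⟩

/-- the arcs of all small admissible lengths at `F` are definable -/
def Good (D : (n : ℕ) → Set (Fin n → ℤ) → Prop) (α : ℝ) (F : Finset UnitAddCircle) : Prop :=
  F.Nonempty ∧ ∃ ε : ℝ, 0 < ε ∧ ∀ (z : ℤ) (s : ℝ), 0 < s → s < ε →
    (((z : ℝ) * α : ℝ) : UnitAddCircle) = ((s : ℝ) : UnitAddCircle) → D1 D (PF α F s)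

theorem coe_sub_mul (y z : ℤ) : ((((y + -z : ℤ) : ℝ) * α : ℝ) : UnitAddCircle) =
    (((y : ℝ) * α : ℝ) : UnitAddCircle) - (((z : ℝ) * α : ℝ) : UnitAddCircle) := by
  rw [← AddCircle.coe_sub]
  congr 1
  push_cast
  ring

theorem trim (hD : DS D) {F : Finset UnitAddCircle} (hF : F.Nonempty) {L δ : ℝ} (hL : 0 < L)
    (hLδ : 2 * L ≤ δ) (hδ : δ ≤ 1 / 2)
    (hsep : ∀ f ∈ F, ∀ f' ∈ F, ∀ u : ℝ, |u| < δ → f - f' = ((u : ℝ) : UnitAddCircle) → f - f' = 0)
    (h : D1 D (PF α F L)) : Good D α F := by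
  refine ⟨hF, L, hL, fun z s hs0 hs hz => ?_⟩
  have h1 : D1 D (PF α F L ∩ {y | y + -z ∈ PF α F L}ᶜ) :=
    D1_inter hD h (D1_compl hD (D1_shift hD h (-z)))
  have h2 : PF α F L ∩ {y | y + -z ∈ PF α F L}ᶜ = PF α F s := by
    ext y
    rw [Set.mem_inter_iff, Set.mem_compl_iff, Set.mem_setOf_eq]
    constructor
    · rintro ⟨⟨f, hf, u, hu0, huL, hu⟩, h3⟩
      refine ⟨f, hf, u, hu0, ?_, hu⟩
      by_contra hcon
      push Not at hcon
      apply h3
      refine ⟨f, hf, u - s, by linarith, by linarith, ?_⟩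
      rw [coe_sub_mul, hu, hz, AddCircle.coe_sub]
      abel
    · rintro ⟨f, hf, u, hu0, hus, hu⟩
      refine ⟨⟨f, hf, u, hu0, by linarith, hu⟩, ?_⟩
      rintro ⟨f', hf', u', hu0', huL', hu'⟩
      rw [coe_sub_mul, hu, hz] at hu'
      have e1 : f - f' = ((u' - u + s : ℝ) : UnitAddCircle) := by
        rw [AddCircle.coe_add, AddCircle.coe_sub]
        have : f = f' + (u' : UnitAddCircle) - ((u : UnitAddCircle) - (s : UnitAddCircle)) := by
          rw [← hu']
          abel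
        rw [this]
        abel
      have e2 : |u' - u + s| < δ := by
        rw [abs_lt]
        constructor <;> linarith
      have e3 := hsep f hf f' hf' _ e2 e1
      rw [e3] at e1
      have e4 := coe_zero_small (by linarith) e1.symm
      linarith
  rwa [h2] at h1

theorem inter [DecidableEq UnitAddCircle] (hD : DS D) {F : Finset UnitAddCircle}
    {g : UnitAddCircle} {L δ s : ℝ}
    (hLδ : 2 * L ≤ δ) (hδ : δ ≤ 1 / 2) (hs0 : 0 < s) (hs : s < L)
    (hsep : ∀ f ∈ F, ∀ f' ∈ F, ∀ u : ℝ, |u| < δ → f - f' - g = ((u : ℝ) : UnitAddCircle) →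
      f - f' - g = 0) {q : ℤ}
    (hq : (((q : ℝ) * α : ℝ) : UnitAddCircle) = g + ((s : ℝ) : UnitAddCircle))
    (h : D1 D (PF α F L)) :
    D1 D (PF α ((F.filter fun f => f - g ∈ F).image fun f => f + ((s : ℝ) : UnitAddCircle))
      (L - s)) := by
  have h1 : D1 D (PF α F L ∩ {y | y + -q ∈ PF α F L}) := D1_inter hD h (D1_shift hD h (-q))
  have h2 : PF α F L ∩ {y | y + -q ∈ PF α F L} =
      PF α ((F.filter fun f => f - g ∈ F).image fun f => f + ((s : ℝ) : UnitAddCircle))
        (L - s) := by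
    ext y
    rw [Set.mem_inter_iff, Set.mem_setOf_eq]
    constructor
    · rintro ⟨⟨f, hf, u, hu0, huL, hu⟩, ⟨f', hf', u', hu0', huL', hu'⟩⟩
      rw [coe_sub_mul, hu, hq] at hu'
      have e1 : f - f' - g = ((u' + s - u : ℝ) : UnitAddCircle) := by
        rw [AddCircle.coe_sub, AddCircle.coe_add]
        have : f = f' + (u' : UnitAddCircle) - ((u : UnitAddCircle) -
            (g + (s : UnitAddCircle))) := by
          rw [← hu']
          abel
        rw [this]
        abel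
      have e2 : |u' + s - u| < δ := by
        rw [abs_lt]
        constructor <;> linarith
      have e3 := hsep f hf f' hf' _ e2 e1
      rw [e3] at e1
      have e4 := coe_zero_small (by linarith) e1.symm
      have e5 : f - g = f' := by
        rw [sub_right_comm, sub_eq_zero] at e3
        exact e3
      refine ⟨f + ((s : ℝ) : UnitAddCircle), ?_, u', hu0', by linarith, ?_⟩
      · apply Finset.mem_image_of_mem
        rw [Finset.mem_filter]
        exact ⟨hf, by rw [e5]; exact hf'⟩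
      · have e6 : u = u' + s := by linarith
        rw [hu, e6, AddCircle.coe_add]
        abel
    · rintro ⟨f1, hf1, u, hu0, huL, hu⟩
      rw [Finset.mem_image] at hf1
      obtain ⟨f, hf, rfl⟩ := hf1
      rw [Finset.mem_filter] at hf
      refine ⟨⟨f, hf.1, u + s, by linarith, by linarith, ?_⟩,
        ⟨f - g, hf.2, u, hu0, by linarith, ?_⟩⟩
      · rw [hu, AddCircle.coe_add]
        abel
      · rw [coe_sub_mul, hu, hq]
        abel
  rwa [h2] at h1

/-- a nonempty finite set of the circle closed under the differences -/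
theorem group {F : Finset UnitAddCircle} {f0 : UnitAddCircle} (h0 : f0 ∈ F)
    (h : ∀ f1 ∈ F, ∀ f2 ∈ F, ∀ f ∈ F, f - (f1 - f2) ∈ F) (t : UnitAddCircle) :
    f0 + t ∈ F ↔ F.card • t = 0 := by
  classical
  obtain ⟨H, hH⟩ : ∃ H : AddSubgroup UnitAddCircle, ∀ t, t ∈ H ↔ f0 + t ∈ F := by
    refine ⟨AddSubgroup.ofSub {t | f0 + t ∈ F} ⟨0, by simpa using h0⟩ ?_, fun t => Iff.rfl⟩
    intro x hx y hy
    rw [Set.mem_setOf_eq] at hx hy ⊢
    have h1 := h _ hy _ h0 _ hx
    have e : f0 + (x + -y) = f0 + x - (f0 + y - f0) := by abel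
    rw [e]
    exact h1
  have hcard : Nat.card H = F.card := by
    have e : H ≃ F := {
      toFun := fun x => ⟨f0 + x.1, (hH _).1 x.2⟩
      invFun := fun x => ⟨x.1 - f0, (hH _).2 (by rw [add_sub_cancel]; exact x.2)⟩
      left_inv := fun x => by
        apply Subtype.ext
        change f0 + x.1 - f0 = x.1
        abel
      right_inv := fun x => by
        apply Subtype.ext
        change f0 + (x.1 - f0) = x.1
        abel }
    rw [Nat.card_congr e, Nat.card_eq_fintype_card, Fintype.card_coe]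
  have hdir : ∀ t, f0 + t ∈ F → F.card • t = 0 := by
    intro t ht
    have h1 : Nat.card H • (⟨t, (hH t).2 ht⟩ : H) = 0 := card_nsmul_eq_zero'
    rw [hcard] at h1
    have h2 := congrArg (Subtype.val) h1
    simpa using h2
  refine ⟨hdir t, fun ht => ?_⟩
  have hpos : 0 < F.card := Finset.card_pos.2 ⟨f0, h0⟩
  obtain ⟨I, hI⟩ : ∃ I : Finset UnitAddCircle, I = (Finset.range F.card).image
      fun k : ℕ => (((k : ℝ) / (F.card : ℝ) * 1 : ℝ) : UnitAddCircle) := ⟨_, rfl⟩
  have hIt : ∀ t : UnitAddCircle, F.card • t = 0 → t ∈ I := by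
    intro t ht
    obtain ⟨m, hm, h1⟩ := (AddCircle.nsmul_eq_zero_iff hpos).1 ht
    rw [hI, ← h1]
    exact Finset.mem_image_of_mem _ (Finset.mem_range.2 hm)
  have hsub : F.image (fun f => f - f0) ⊆ I := by
    intro x hx
    rw [Finset.mem_image] at hx
    obtain ⟨f, hf, rfl⟩ := hx
    apply hIt
    apply hdir
    rw [add_sub_cancel]
    exact hf
  have hc1 : (F.image (fun f => f - f0)).card = F.card :=
    Finset.card_image_of_injective _ sub_left_injective
  have hc2 : I.card ≤ F.card := by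
    rw [hI]
    exact Finset.card_image_le.trans (Finset.card_range _).le
  have heq : F.image (fun f => f - f0) = I :=
    Finset.eq_of_subset_of_card_le hsub (by rw [hc1]; exact hc2)
  have h3 := hIt t ht
  rw [← heq, Finset.mem_image] at h3
  obtain ⟨f, hf, rfl⟩ := h3
  rw [add_sub_cancel]
  exact hf

/-- **Z1.** -/
theorem z1 : Z1 := by
  classical
  intro D α Y hD hα hA hY h1 h2
  obtain ⟨F0, ε0, hF0, hε0, h0⟩ := start hD hα hA hY h1 h2
  obtain ⟨F, hF, hmin⟩ : ∃ F, Good D α F ∧ ∀ F', Good D α F' → F.card ≤ F'.card := by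
    have h : ∃ k, ∃ F, Good D α F ∧ F.card = k := ⟨_, F0, ⟨hF0, ε0, hε0, h0⟩, rfl⟩
    obtain ⟨F, hF, hk⟩ := Nat.find_spec h
    exact ⟨F, hF, fun F' hF' => hk ▸ Nat.find_min' h ⟨F', hF', rfl⟩⟩
  obtain ⟨hFn, ε, hε, hFε⟩ := hF
  -- closed under differences
  have hcl : ∀ f1 ∈ F, ∀ f2 ∈ F, ∀ f ∈ F, f - (f1 - f2) ∈ F := by
    intro f1 hf1 f2 hf2
    obtain ⟨g, hg⟩ : ∃ g, g = f1 - f2 := ⟨_, rfl⟩
    rw [← hg]
    obtain ⟨δ1, hδ1, hδ1', hs1⟩ := sep ((F ×ˢ F).image fun p => p.1 - p.2)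
    obtain ⟨δ2, hδ2, hδ2', hs2⟩ := sep ((F ×ˢ F).image fun p => p.1 - p.2 - g)
    obtain ⟨z, L, hL0, hL, hz⟩ := small hα 0 (ε := min ε (min δ1 δ2 / 2))
      (lt_min hε (half_pos (lt_min hδ1 hδ2)))
    rw [zero_add] at hz
    have hLε : L < ε := hL.trans_le (min_le_left _ _)
    have hLδ : L < min δ1 δ2 / 2 := hL.trans_le (min_le_right _ _)
    have hLδ1 : 2 * L ≤ δ1 := by
      have := min_le_left δ1 δ2
      linarith
    have hLδ2 : 2 * L ≤ δ2 := by
      have := min_le_right δ1 δ2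
      linarith
    obtain ⟨q, s, hs0, hs, hq⟩ := small hα g hL0
    have h3 := inter hD (F := F) (g := g) hLδ2 hδ2' hs0 hs (fun f hf f' hf' u hu hfu =>
      hs2 _ (Finset.mem_image.2 ⟨(f, f'), Finset.mem_product.2 ⟨hf, hf'⟩, rfl⟩) u hu hfu) hq
      (hFε z L hL0 hLε hz)
    obtain ⟨F', hF'⟩ : ∃ F', F' = F.filter fun f => f - g ∈ F := ⟨_, rfl⟩
    rw [← hF'] at h3
    have hF'n : F'.Nonempty := by
      refine ⟨f1, ?_⟩
      rw [hF', Finset.mem_filter]
      refine ⟨hf1, ?_⟩
      rw [hg, sub_sub_cancel]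
      exact hf2
    have h4 : Good D α (F'.image fun f => f + ((s : ℝ) : UnitAddCircle)) := by
      refine trim hD (hF'n.image _) (δ := δ1) (by linarith) (by linarith) hδ1' ?_ h3
      intro x hx y hy u hu hxy
      rw [Finset.mem_image] at hx hy
      obtain ⟨f, hf, rfl⟩ := hx
      obtain ⟨f', hf', rfl⟩ := hy
      rw [add_sub_add_right_eq_sub] at hxy ⊢
      rw [hF', Finset.mem_filter] at hf hf'
      exact hs1 _ (Finset.mem_image.2 ⟨(f, f'), Finset.mem_product.2 ⟨hf.1, hf'.1⟩, rfl⟩) u hu hxy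
    have h5 := hmin _ h4
    have h6 : F' = F := by
      apply Finset.eq_of_subset_of_card_le
      · rw [hF']
        exact Finset.filter_subset _ _
      · exact h5.trans Finset.card_image_le
    intro f hf
    rw [← h6, hF', Finset.mem_filter] at hf
    exact hf.2
  obtain ⟨f0, hf0⟩ := hFn
  have hgrp := group hf0 hcl
  obtain ⟨m, hm⟩ : ∃ m, m = F.card := ⟨_, rfl⟩
  rw [← hm] at hgrp
  have hm0 : 0 < m := by
    rw [hm]
    exact Finset.card_pos.2 ⟨f0, hf0⟩
  have hm1 : (0 : ℝ) < m := by exact_mod_cast hm0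
  obtain ⟨r0, hr0⟩ : ∃ r : ℝ, ((r : ℝ) : UnitAddCircle) = f0 := QuotientAddGroup.mk_surjective f0
  obtain ⟨z, L, hL0, hL, hz⟩ := small hα 0 (ε := min ε (1 / (4 * m)))
    (lt_min hε (by positivity))
  rw [zero_add] at hz
  have hLε : L < ε := hL.trans_le (min_le_left _ _)
  have hLm : L < 1 / (4 * m) := hL.trans_le (min_le_right _ _)
  have hmL : m * L < 1 / 4 := by
    rw [lt_div_iff₀ (by positivity)] at hLm
    linarith
  refine ⟨m, m * r0, m * L, hm0, by positivity, hmL, ?_⟩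
  have h3 := hFε z L hL0 hLε hz
  have h4 : PF α F L = {y : ℤ | Int.fract ((y : ℝ) * (m * α) - m * r0) < m * L} := by
    ext y
    rw [Set.mem_setOf_eq]
    constructor
    · rintro ⟨f, hf, u, hu0, huL, hu⟩
      have h5 : m • (f - f0) = 0 := by
        apply (hgrp _).1
        rw [add_sub_cancel]
        exact hf
      have h6 : (((y : ℝ) * (m * α) - m * r0 : ℝ) : UnitAddCircle) = ((m * u : ℝ) : UnitAddCircle) := by
        have e1 : (y : ℝ) * (m * α) - m * r0 = m • ((y : ℝ) * α - r0) := by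
          rw [nsmul_eq_mul]
          ring
        have e2 : (m : ℝ) * u = m • u := by
          rw [nsmul_eq_mul]
        rw [e1, e2, AddCircle.coe_nsmul, AddCircle.coe_nsmul, AddCircle.coe_sub, hu, hr0]
        have e3 : f + (u : UnitAddCircle) - f0 = (f - f0) + (u : UnitAddCircle) := by abel
        rw [e3, smul_add, h5, zero_add]
      obtain ⟨n, hn⟩ := coe_eq_iff.1 h6
      have h7 : m * u < m * L := mul_lt_mul_of_pos_left huL hm1
      rw [fr_of n hn (by positivity) (by linarith)]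
      exact h7
    · intro h5
      obtain ⟨v, hv⟩ : ∃ v, v = Int.fract ((y : ℝ) * (m * α) - m * r0) := ⟨_, rfl⟩
      rw [← hv] at h5
      have hv0 : 0 ≤ v := by
        rw [hv]
        exact Int.fract_nonneg _
      have h6 : m • (((y : ℝ) * α - r0 - v / m : ℝ) : UnitAddCircle) = 0 := by
        rw [← AddCircle.coe_nsmul, nsmul_eq_mul]
        have e1 : (m : ℝ) * ((y : ℝ) * α - r0 - v / m) = (⌊(y : ℝ) * (m * α) - m * r0⌋ : ℤ) := by
          have e2 := Int.floor_add_fract ((y : ℝ) * (m * α) - m * r0)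
          rw [← hv] at e2
          have e3 : (m : ℝ) * (v / m) = v := by field_simp
          have e4 : (m : ℝ) * ((y : ℝ) * α - r0 - v / m) =
              ((y : ℝ) * (m * α) - m * r0) - m * (v / m) := by ring
          rw [e4, e3]
          linarith
        rw [e1, ← AddCircle.coe_zero]
        exact coe_eq_iff.2 ⟨_, (zero_add _).symm⟩
      refine ⟨_, (hgrp _).2 h6, v / m, by positivity, ?_, ?_⟩
      · rw [div_lt_iff₀ hm1]
        linarith
      · rw [← hr0, ← AddCircle.coe_add, ← AddCircle.coe_add]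
        congr 1
        ring
  rwa [h4] at h3

end Pool.Agent.Q200.ZZ
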